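import Pool.Agent.Q223.EN.Rad

/-! The solutions are the radical of a uniformly distributed symmetric form. -/

set_option autoImplicit false

namespace Pool.Agent.Q223.EN

open Pool.Agent.Q7.LK Pool.Agent.Q283.EN Module

section
variable {p : ℕ} [Fact p.Prime] {f k : ℕ} {g : (Fin f → ZMod p) → (Fin f → ZMod p) → ZMod p}
  {w : Fin f → ZMod p} {z : Fin k → ZMod p}
  {E : Submodule (ZMod p) ((Fin f → ZMod p) × (Fin f → ZMod p))}
  {φ : Fin k → Fin f → ZMod p}

theorem Mt_sub (hg : Alt g) (t : {x : Fin k × Fin k // x.1 < x.2} → ZMod p) (i j : Fin k) :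
    Mt g (φ, t) i j - Mt g (φ, t) j i = g (φ i) (φ j) := by
  unfold Mt
  rcases lt_trichotomy i j with h | h | h
  · rw [dif_pos h, dif_neg h.not_gt, dif_pos h, hg.anti (φ i) (φ j)]
    ring
  · subst h
    rw [sub_self, hg.self]
  · rw [dif_neg h.not_gt, dif_pos h, dif_pos h]
    ring

/-- the symmetric matrix of a function of the pairs -/
def TT (s : {x : Fin k × Fin k // x.1 < x.2} → ZMod p) (i j : Fin k) : ZMod p :=
  if h : i < j then s ⟨(i, j), h⟩ else if h : j < i then s ⟨(j, i), h⟩ else 0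

theorem Mt_add (t s : {x : Fin k × Fin k // x.1 < x.2} → ZMod p) (i j : Fin k) :
    Mt g (φ, t + s) i j = Mt g (φ, t) i j + TT s i j := by
  unfold Mt TT
  split_ifs
  · rfl
  · change t _ + s _ + g (φ i) (φ j) = t _ + g (φ i) (φ j) + s _
    ring
  · rw [add_zero]

/-- the change of the form -/
def LL (z : Fin k → ZMod p) (T : Fin k → Fin k → ZMod p)
    (x x' : (Fin f → ZMod p) × (Fin k → ZMod p)) : ZMod p :=
  ∑ j, x'.2 j * ∑ i, (x.2 i - x.2 j * (z j)⁻¹ * z i) * T i j

theorem SS_add_matrix (m T : Fin k → Fin k → ZMod p)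
    (x x' : (Fin f → ZMod p) × (Fin k → ZMod p)) :
    SS w z φ (fun i j => m i j + T i j) x x' = SS w z φ m x x' + LL z T x x' := by
  unfold SS LL
  rw [← Finset.sum_add_distrib]
  refine Finset.sum_congr rfl fun j _ => ?_
  unfold cnd
  have h : ∑ i, (x.2 i - x.2 j * (z j)⁻¹ * z i) * (m i j + T i j) =
      ∑ i, (x.2 i - x.2 j * (z j)⁻¹ * z i) * m i j +
        ∑ i, (x.2 i - x.2 j * (z j)⁻¹ * z i) * T i j := by
    rw [← Finset.sum_add_distrib]
    exact Finset.sum_congr rfl fun i _ => by ring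
  rw [h]
  ring

variable {n : ℕ} (d : Dat w z E φ n)

theorem M_add (t s : {x : Fin k × Fin k // x.1 < x.2} → ZMod p) :
    d.M (Mt g (φ, t + s)) = d.M (Mt g (φ, t)) +
      Matrix.of fun a b => LL z (TT s) (d.σ (Pi.single a 1)) (d.σ (Pi.single b 1)) := by
  have h : Mt g (φ, t + s) = fun i j => Mt g (φ, t) i j + TT s i j := by
    funext i j
    exact Mt_add t s i j
  ext a b
  rw [h, Matrix.add_apply]
  exact SS_add_matrix _ _ _ _

/-- every symmetric matrix is a change -/
theorem exists_change (hz : ∀ i, z i ≠ 0) (N : Matrix (Fin n) (Fin n) (ZMod p)) (hN : N.IsSymm) :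
    ∃ s : {x : Fin k × Fin k // x.1 < x.2} → ZMod p,
      (Matrix.of fun a b => LL z (TT s) (d.σ (Pi.single a 1)) (d.σ (Pi.single b 1))) = N := by
  classical
  let A : Fin k → Fin k → ZMod p := fun i j =>
    dotProduct (d.P (Pi.single i 1)) (N.mulVec (d.P (Pi.single j 1)))
  have hAs : ∀ i j, A i j = A j i := by
    intro i j
    change dotProduct _ (N.mulVec _) = dotProduct _ (N.mulVec _)
    rw [Matrix.dotProduct_mulVec, dotProduct_comm]
    congr 1
    rw [← Matrix.mulVec_transpose, hN]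
  have hA1 : ∀ (Y : Fin k → ZMod p) (j : Fin k),
      ∑ i, Y i * A i j = dotProduct (d.P Y) (N.mulVec (d.P (Pi.single j 1))) := by
    intro Y j
    have h1 : Y = ∑ i, Y i • (Pi.single i 1 : Fin k → ZMod p) := by
      funext l
      simp [Finset.sum_apply, Pi.single_apply]
    conv_rhs => rw [h1, map_sum, sum_dotProduct]
    exact Finset.sum_congr rfl fun i _ => by rw [map_smul, smul_dotProduct, smul_eq_mul]
  have hA2 : ∀ (Y Y' : Fin k → ZMod p),
      ∑ j, Y' j * ∑ i, Y i * A i j = dotProduct (d.P Y) (N.mulVec (d.P Y')) := by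
    intro Y Y'
    have h1 : Y' = ∑ i, Y' i • (Pi.single i 1 : Fin k → ZMod p) := by
      funext l
      simp [Finset.sum_apply, Pi.single_apply]
    conv_rhs => rw [h1, map_sum, Matrix.mulVec_sum, dotProduct_sum]
    exact Finset.sum_congr rfl fun j _ => by
      rw [hA1, map_smul, Matrix.mulVec_smul, dotProduct_smul, smul_eq_mul]
  refine ⟨fun x => A x.1.1 x.1.2, ?_⟩
  have hT : ∀ i j, i ≠ j → TT (fun x : {x : Fin k × Fin k // x.1 < x.2} => A x.1.1 x.1.2) i j =
      A i j := by
    intro i j hij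
    unfold TT
    rcases lt_or_gt_of_ne hij with h | h
    · rw [dif_pos h]
    · rw [dif_neg h.not_gt, dif_pos h]
      exact hAs j i
  ext a b
  change LL z _ (d.σ (Pi.single a 1)) (d.σ (Pi.single b 1)) = N a b
  set x := d.σ (Pi.single a 1) with hx
  set x' := d.σ (Pi.single b 1) with hx'
  unfold LL
  have h1 : ∀ j, ∑ i, (x.2 i - x.2 j * (z j)⁻¹ * z i) *
      TT (fun x : {x : Fin k × Fin k // x.1 < x.2} => A x.1.1 x.1.2) i j =
      ∑ i, x.2 i * A i j := by
    intro j
    have h2 : ∑ i, (x.2 i - x.2 j * (z j)⁻¹ * z i) *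
        TT (fun x : {x : Fin k × Fin k // x.1 < x.2} => A x.1.1 x.1.2) i j =
        ∑ i, (x.2 i - x.2 j * (z j)⁻¹ * z i) * A i j := by
      refine Finset.sum_congr rfl fun i _ => ?_
      by_cases hij : i = j
      · subst hij
        have h3 : x.2 i - x.2 i * (z i)⁻¹ * z i = 0 := by
          rw [mul_assoc, inv_mul_cancel₀ (hz i), mul_one, sub_self]
        rw [h3, zero_mul, zero_mul]
      · rw [hT i j hij]
    have h3 : ∑ i, z i * A i j = 0 := by
      rw [hA1, d.hz, zero_dotProduct]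
    have h4 : ∑ i, (x.2 i - x.2 j * (z j)⁻¹ * z i) * A i j =
        ∑ i, x.2 i * A i j - x.2 j * (z j)⁻¹ * ∑ i, z i * A i j := by
      rw [Finset.mul_sum, ← Finset.sum_sub_distrib]
      exact Finset.sum_congr rfl fun i _ => by ring
    rw [h2, h4, h3, mul_zero, sub_zero]
  rw [Finset.sum_congr rfl fun j _ => by rw [h1 j], hA2, hx, hx', d.Pσ, d.Pσ]
  simp [Matrix.mulVec_single, single_dotProduct]

theorem isSo_iff (t : {x : Fin k × Fin k // x.1 < x.2} → ZMod p)
    (x : (Fin f → ZMod p) × (Fin k → ZMod p)) :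
    x ∈ SolX g w z E (φ, t) ↔ IsSo w z E φ (Mt g (φ, t)) x := by
  unfold SolX IsSo cnd
  rw [Set.mem_ofPred_eq, mem_XX]
  simp only [sub_eq_zero]

end

/-- equally large fibres -/
theorem card_fiber {α β : Type} [Finite α] [Finite β] (h : α → β) (κ : ℕ)
    (hκ : ∀ y, Nat.card {x // h x = y} = κ) (q : β → Prop) (P : α → Prop)
    (hPq : ∀ x, P x ↔ q (h x)) : Nat.card {x // P x} = Nat.card {y // q y} * κ := by
  classical
  have := Fintype.ofFinite β
  have := Fintype.ofFinite α
  rw [← Nat.card_congr (Equiv.sigmaSubtypeFiberEquivSubtype h hPq), Nat.card_sigma]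
  rw [Finset.sum_congr rfl fun y _ => hκ y.1, Finset.sum_const, smul_eq_mul, Finset.card_univ,
    Nat.card_eq_fintype_card]

theorem alg : S_ALG := by
  intro p _ f k g w ψ z E hk hg hE hψ hz φ hφz hφ
  have hp := (Fact.out (p := p.Prime))
  have hw : (∑ j, z j • φ j, w) ∈ E := by rw [hφz]; exact hψ
  obtain ⟨n, hn1, hn2, ⟨d⟩⟩ := exists_dat (w := w) (E := E) (φ := φ) hk hz hw
  refine ⟨n, hn1, hn2, fun r => ?_⟩
  let Sy := {M : Matrix (Fin n) (Fin n) (ZMod p) // M.IsSymm}
  let h : ({x : Fin k × Fin k // x.1 < x.2} → ZMod p) → Sy := fun t =>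
    ⟨d.M (Mt g (φ, t)), d.M_symm hg hE (Mt_sub hg t)⟩
  have hcard : ∀ t, Nat.card (SolX g w z E (φ, t)) =
      p * Nat.card {v : Fin n → ZMod p // (h t).1.mulVec v = 0} := by
    intro t
    rw [← d.card hk hg hE hφ (Mt_sub hg t) hz hw]
    exact Nat.card_congr (Equiv.subtypeEquivRight fun x => isSo_iff t x)
  -- the fibres
  have hfib : ∀ y y' : Sy, Nat.card {t // h t = y} = Nat.card {t // h t = y'} := by
    intro y y'
    obtain ⟨s, hs⟩ := exists_change d hz (y'.1 - y.1) (y'.2.sub y.2)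
    refine Nat.card_congr (Equiv.subtypeEquiv (Equiv.addRight s) fun t => ?_)
    have h1 : (h (t + s)).1 = (h t).1 + (y'.1 - y.1) := by
      rw [← hs]
      exact M_add d t s
    change h t = y ↔ h (t + s) = y'
    constructor
    · intro h2
      apply Subtype.ext
      rw [h1, h2]
      abel
    · intro h2
      apply Subtype.ext
      rw [h2] at h1
      have h3 : (h t).1 = y'.1 - (y'.1 - y.1) := by
        rw [eq_sub_iff_add_eq]
        exact h1.symm
      rw [h3]
      abel
  have hκ : ∀ y : Sy, Nat.card {t // h t = y} = Nat.card {t // h t = h 0} := fun y => hfib _ _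
  have h1 := card_fiber h _ hκ (fun y => Nat.card {v : Fin n → ZMod p // y.1.mulVec v = 0} = p ^ r)
    (fun t => Nat.card (SolX g w z E (φ, t)) = p ^ (r + 1)) (fun t => by
      rw [hcard, pow_succ, mul_comm]
      exact ⟨fun h2 => Nat.eq_of_mul_eq_mul_right hp.pos h2, fun h2 => by rw [h2]⟩)
  have h2 := card_fiber h _ hκ (fun _ => True) (fun _ => True) (fun _ => Iff.rfl)
  have h3 : Nat.card {x : {x : Fin k × Fin k // x.1 < x.2} → ZMod p // True} =
      Nat.card ({x : Fin k × Fin k // x.1 < x.2} → ZMod p) :=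
    Nat.card_congr (Equiv.subtypeUnivEquiv fun _ => trivial)
  have h4 : Nat.card {y : Sy // True} = nSy p n :=
    Nat.card_congr (Equiv.subtypeUnivEquiv fun _ => trivial)
  have h5 : Nat.card {y : Sy // Nat.card {v : Fin n → ZMod p // y.1.mulVec v = 0} = p ^ r} =
      nRk p n r := by
    unfold nRk
    exact Nat.card_congr (Equiv.subtypeSubtypeEquivSubtypeInter
      (fun M : Matrix (Fin n) (Fin n) (ZMod p) => M.IsSymm)
      (fun M => Nat.card {v : Fin n → ZMod p // M.mulVec v = 0} = p ^ r))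
  rw [h3, h4] at h2
  rw [h5] at h1
  rw [h1, h2]
  ring

end Pool.Agent.Q223.EN
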