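import Pool.Agent.Q223.EN.Lag

/-! The symmetric form of the conditions. -/

set_option autoImplicit false

namespace Pool.Agent.Q223.EN

open Pool.Agent.Q7.LK Pool.Agent.Q283.EN Module

section
variable {p : ℕ} [Fact p.Prime] {f k : ℕ} {g : (Fin f → ZMod p) → (Fin f → ZMod p) → ZMod p}
  (w : Fin f → ZMod p) (z : Fin k → ZMod p)
  (E : Submodule (ZMod p) ((Fin f → ZMod p) × (Fin f → ZMod p)))
  (φ : Fin k → Fin f → ZMod p) (m : Fin k → Fin k → ZMod p)

theorem dot_sub_smul (a b c : Fin f → ZMod p) (r : ZMod p) :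
    dot a (b - r • c) = dot a b - r * dot a c := by
  have h := dot_add_right a (b - r • c) (r • c)
  rw [sub_add_cancel, dot_smul_right] at h
  rw [h]
  ring

/-- the conditions -/
def cnd (x : (Fin f → ZMod p) × (Fin k → ZMod p)) (j : Fin k) : ZMod p :=
  ∑ i, (x.2 i - x.2 j * (z j)⁻¹ * z i) * m i j - dot (φ j) (x.1 - (x.2 j * (z j)⁻¹) • w)

/-- the diagonal coefficient -/
def dg (j : Fin k) : ZMod p := (z j)⁻¹ * (∑ i, z i * m i j - dot (φ j) w)

theorem cnd_eq (x : (Fin f → ZMod p) × (Fin k → ZMod p)) (j : Fin k) :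
    cnd w z φ m x j = ∑ i, x.2 i * m i j - dot (φ j) x.1 - x.2 j * dg w z φ m j := by
  unfold cnd dg
  rw [dot_sub_smul]
  have h : ∑ i, (x.2 i - x.2 j * (z j)⁻¹ * z i) * m i j =
      ∑ i, x.2 i * m i j - x.2 j * (z j)⁻¹ * ∑ i, z i * m i j := by
    rw [Finset.mul_sum, ← Finset.sum_sub_distrib]
    exact Finset.sum_congr rfl fun i _ => by ring
  rw [h]
  ring

theorem cnd_add (x y : (Fin f → ZMod p) × (Fin k → ZMod p)) (j : Fin k) :
    cnd w z φ m (x + y) j = cnd w z φ m x j + cnd w z φ m y j := by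
  rw [cnd_eq, cnd_eq, cnd_eq, Prod.fst_add, Prod.snd_add, dot_add_right]
  have h : ∑ i, (x.2 + y.2) i * m i j = ∑ i, x.2 i * m i j + ∑ i, y.2 i * m i j := by
    rw [← Finset.sum_add_distrib]
    exact Finset.sum_congr rfl fun i _ => by rw [Pi.add_apply]; ring
  rw [h, Pi.add_apply]
  ring

theorem cnd_smul (r : ZMod p) (x : (Fin f → ZMod p) × (Fin k → ZMod p)) (j : Fin k) :
    cnd w z φ m (r • x) j = r * cnd w z φ m x j := by
  rw [cnd_eq, cnd_eq, Prod.smul_fst, Prod.smul_snd, dot_smul_right]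
  have h : ∑ i, (r • x.2) i * m i j = r * ∑ i, x.2 i * m i j := by
    rw [Finset.mul_sum]
    exact Finset.sum_congr rfl fun i _ => by rw [Pi.smul_apply, smul_eq_mul]; ring
  rw [h, Pi.smul_apply, smul_eq_mul]
  ring

theorem cnd_sub (x y : (Fin f → ZMod p) × (Fin k → ZMod p)) (j : Fin k) :
    cnd w z φ m (x - y) j = cnd w z φ m x j - cnd w z φ m y j := by
  have h := cnd_add w z φ m (x - y) y j
  rw [sub_add_cancel] at h
  rw [h]
  ring

/-- the condition of the trivial solution -/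
theorem cnd_triv (hz : ∀ i, z i ≠ 0) (j : Fin k) : cnd w z φ m (w, z) j = 0 := by
  unfold cnd
  have h : z j * (z j)⁻¹ = 1 := mul_inv_cancel₀ (hz j)
  simp only [h, one_mul, sub_self, zero_mul, Finset.sum_const_zero, one_smul, dot_zero_right]

/-- the condition of the elements with `Y = 0` -/
theorem cnd_zero (c : Fin f → ZMod p) (j : Fin k) : cnd w z φ m (c, 0) j = - dot (φ j) c := by
  rw [cnd_eq]
  simp

/-- the form -/
def SS (x x' : (Fin f → ZMod p) × (Fin k → ZMod p)) : ZMod p := ∑ j, x'.2 j * cnd w z φ m x j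

theorem SS_add_left (x y x' : (Fin f → ZMod p) × (Fin k → ZMod p)) :
    SS w z φ m (x + y) x' = SS w z φ m x x' + SS w z φ m y x' := by
  unfold SS
  rw [← Finset.sum_add_distrib]
  exact Finset.sum_congr rfl fun j _ => by rw [cnd_add]; ring

theorem SS_smul_left (r : ZMod p) (x x' : (Fin f → ZMod p) × (Fin k → ZMod p)) :
    SS w z φ m (r • x) x' = r * SS w z φ m x x' := by
  unfold SS
  rw [Finset.mul_sum]
  exact Finset.sum_congr rfl fun j _ => by rw [cnd_smul]; ring

theorem SS_add_right (x x' y' : (Fin f → ZMod p) × (Fin k → ZMod p)) :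
    SS w z φ m x (x' + y') = SS w z φ m x x' + SS w z φ m x y' := by
  unfold SS
  rw [← Finset.sum_add_distrib]
  exact Finset.sum_congr rfl fun j _ => by rw [Prod.snd_add, Pi.add_apply]; ring

theorem SS_smul_right (r : ZMod p) (x x' : (Fin f → ZMod p) × (Fin k → ZMod p)) :
    SS w z φ m x (r • x') = r * SS w z φ m x x' := by
  unfold SS
  rw [Finset.mul_sum]
  exact Finset.sum_congr rfl fun j _ => by rw [Prod.smul_snd, Pi.smul_apply, smul_eq_mul]; ring

/-- the linear combination -/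
noncomputable def Ph : (Fin k → ZMod p) →ₗ[ZMod p] (Fin f → ZMod p) :=
  Fintype.linearCombination (ZMod p) φ

theorem Ph_apply (Y : Fin k → ZMod p) : Ph φ Y = ∑ j, Y j • φ j := rfl

/-- the space of the pairs -/
noncomputable def XX : Submodule (ZMod p) ((Fin f → ZMod p) × (Fin k → ZMod p)) :=
  E.comap (((Ph φ) ∘ₗ LinearMap.snd (ZMod p) (Fin f → ZMod p) (Fin k → ZMod p)).prod
    (LinearMap.fst (ZMod p) (Fin f → ZMod p) (Fin k → ZMod p)))

theorem mem_XX (x : (Fin f → ZMod p) × (Fin k → ZMod p)) :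
    x ∈ XX E φ ↔ (∑ j, x.2 j • φ j, x.1) ∈ E := Iff.rfl

theorem dot_Ph (Y : Fin k → ZMod p) (c : Fin f → ZMod p) :
    dot (∑ j, Y j • φ j) c = ∑ j, Y j * dot (φ j) c := by
  rw [dot_sum_left]
  exact Finset.sum_congr rfl fun j _ => dot_smul_left _ _ _

theorem SS_eq (x x' : (Fin f → ZMod p) × (Fin k → ZMod p)) :
    SS w z φ m x x' = ∑ j, ∑ i, x'.2 j * x.2 i * m i j - dot (∑ j, x'.2 j • φ j) x.1 -
      ∑ j, x'.2 j * x.2 j * dg w z φ m j := by
  unfold SS
  rw [dot_Ph, ← Finset.sum_sub_distrib, ← Finset.sum_sub_distrib]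
  refine Finset.sum_congr rfl fun j _ => ?_
  rw [cnd_eq, mul_sub, mul_sub, Finset.mul_sum]
  have h : ∑ i, x'.2 j * (x.2 i * m i j) = ∑ i, x'.2 j * x.2 i * m i j :=
    Finset.sum_congr rfl fun i _ => by ring
  rw [h]
  ring

variable {w z E φ m}

/-- **The form is symmetric.** -/
theorem SS_symm (hg : Alt g) (hE : IsoX g E) (hm : ∀ i j, m i j - m j i = g (φ i) (φ j))
    {x x' : (Fin f → ZMod p) × (Fin k → ZMod p)} (hx : x ∈ XX E φ) (hx' : x' ∈ XX E φ) :
    SS w z φ m x x' = SS w z φ m x' x := by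
  rw [SS_eq, SS_eq]
  have h1 := hE.iso _ ((mem_XX E φ x).1 hx) _ ((mem_XX E φ x').1 hx')
  unfold BB at h1
  simp only at h1
  have h2 : g (∑ j, x.2 j • φ j) (∑ j, x'.2 j • φ j) =
      ∑ j, ∑ i, x'.2 j * x.2 i * (m i j - m j i) := by
    rw [g_sum_right hg]
    refine Finset.sum_congr rfl fun j _ => ?_
    rw [g_smul_right hg, g_sum_left hg, Finset.mul_sum]
    refine Finset.sum_congr rfl fun i _ => ?_
    rw [g_smul_left hg, hm]
    ring
  have h3 : ∑ j, ∑ i, x'.2 j * x.2 i * (m i j - m j i) =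
      ∑ j, ∑ i, x'.2 j * x.2 i * m i j - ∑ j, ∑ i, x'.2 j * x.2 i * m j i := by
    rw [← Finset.sum_sub_distrib]
    refine Finset.sum_congr rfl fun j _ => ?_
    rw [← Finset.sum_sub_distrib]
    exact Finset.sum_congr rfl fun i _ => by ring
  have h4 : ∑ j, ∑ i, x'.2 j * x.2 i * m j i = ∑ j, ∑ i, x.2 j * x'.2 i * m i j := by
    rw [Finset.sum_comm]
    exact Finset.sum_congr rfl fun j _ => Finset.sum_congr rfl fun i _ => by ring
  have h5 : ∑ j, x'.2 j * x.2 j * dg w z φ m j = ∑ j, x.2 j * x'.2 j * dg w z φ m j :=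
    Finset.sum_congr rfl fun j _ => by ring
  rw [h2, h3, h4] at h1
  rw [h5]
  linear_combination h1

theorem SS_sum_right {n : ℕ} (x : (Fin f → ZMod p) × (Fin k → ZMod p)) (v : Fin n → ZMod p)
    (y : Fin n → (Fin f → ZMod p) × (Fin k → ZMod p)) :
    SS w z φ m x (∑ b, v b • y b) = ∑ b, v b * SS w z φ m x (y b) := by
  classical
  have h : ∀ s : Finset (Fin n), SS w z φ m x (∑ b ∈ s, v b • y b) =
      ∑ b ∈ s, v b * SS w z φ m x (y b) := by
    intro s
    induction s using Finset.induction with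
    | empty =>
      rw [Finset.sum_empty, Finset.sum_empty]
      have h1 := SS_smul_right w z φ m 0 x x
      rwa [zero_smul, zero_mul] at h1
    | insert a s ha ih => rw [Finset.sum_insert ha, Finset.sum_insert ha, SS_add_right, ih,
        SS_smul_right]
  exact h Finset.univ

end

end Pool.Agent.Q223.EN
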