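import Pool.Agent.Q283.EN.Stm

/-! A maximal isotropic subspace is its own orthogonal. -/

set_option autoImplicit false

namespace Pool.Agent.Q223.EN

open Pool.Agent.Q7.LK Pool.Agent.Q283.EN Module

section
variable {p : ℕ} [Fact p.Prime] {f : ℕ} {g : (Fin f → ZMod p) → (Fin f → ZMod p) → ZMod p}

theorem dot_add_left (a b c : Fin f → ZMod p) : dot (a + b) c = dot a c + dot b c := by
  unfold dot
  rw [← Finset.sum_add_distrib]
  exact Finset.sum_congr rfl fun l _ => by rw [Pi.add_apply, add_mul]

theorem dot_add_right (a b c : Fin f → ZMod p) : dot a (b + c) = dot a b + dot a c := by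
  unfold dot
  rw [← Finset.sum_add_distrib]
  exact Finset.sum_congr rfl fun l _ => by rw [Pi.add_apply, mul_add]

theorem dot_smul_left (r : ZMod p) (a b : Fin f → ZMod p) : dot (r • a) b = r * dot a b := by
  unfold dot
  rw [Finset.mul_sum]
  exact Finset.sum_congr rfl fun l _ => by rw [Pi.smul_apply, smul_eq_mul, mul_assoc]

theorem dot_smul_right (r : ZMod p) (a b : Fin f → ZMod p) : dot a (r • b) = r * dot a b := by
  unfold dot
  rw [Finset.mul_sum]
  exact Finset.sum_congr rfl fun l _ => by rw [Pi.smul_apply, smul_eq_mul, mul_left_comm]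

theorem dot_single (l : Fin f) (a : Fin f → ZMod p) : dot a (Pi.single l 1) = a l := by
  unfold dot
  simp [Pi.single_apply]

theorem single_dot (l : Fin f) (a : Fin f → ZMod p) : dot (Pi.single l 1) a = a l := by
  unfold dot
  simp [Pi.single_apply]

theorem dot_zero_left (a : Fin f → ZMod p) : dot 0 a = 0 := by
  have h := dot_smul_left (0 : ZMod p) a a
  rwa [zero_smul, zero_mul] at h

theorem dot_zero_right (a : Fin f → ZMod p) : dot a 0 = 0 := by
  have h := dot_smul_right (0 : ZMod p) a a
  rwa [zero_smul, zero_mul] at h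

theorem dot_sum_left {ι : Type} (s : Finset ι) (v : ι → Fin f → ZMod p) (c : Fin f → ZMod p) :
    dot (∑ i ∈ s, v i) c = ∑ i ∈ s, dot (v i) c := by
  classical
  induction s using Finset.induction with
  | empty => rw [Finset.sum_empty, Finset.sum_empty, dot_zero_left]
  | insert a s ha ih => rw [Finset.sum_insert ha, Finset.sum_insert ha, dot_add_left, ih]

theorem g_smul_left (hg : Alt g) (r : ZMod p) (a b : Fin f → ZMod p) :
    g (r • a) b = r * g a b := by
  let h : (Fin f → ZMod p) →+ ZMod p := AddMonoidHom.mk' (fun a => g a b) (fun a c => hg.add a c b)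
  exact ZMod.map_smul h r a

theorem g_add_right (hg : Alt g) (a b c : Fin f → ZMod p) : g a (b + c) = g a b + g a c := by
  rw [hg.anti a (b + c), hg.add, hg.anti b a, hg.anti c a]
  ring

theorem g_smul_right (hg : Alt g) (r : ZMod p) (a b : Fin f → ZMod p) :
    g a (r • b) = r * g a b := by
  rw [hg.anti a (r • b), g_smul_left hg, hg.anti b a]
  ring

theorem g_zero_left (hg : Alt g) (a : Fin f → ZMod p) : g 0 a = 0 := by
  have h := g_smul_left hg (0 : ZMod p) a a
  rwa [zero_smul, zero_mul] at h

theorem g_zero_right (hg : Alt g) (a : Fin f → ZMod p) : g a 0 = 0 := by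
  have h := g_smul_right hg (0 : ZMod p) a a
  rwa [zero_smul, zero_mul] at h

theorem g_sum_left (hg : Alt g) {ι : Type} (s : Finset ι) (v : ι → Fin f → ZMod p)
    (c : Fin f → ZMod p) : g (∑ i ∈ s, v i) c = ∑ i ∈ s, g (v i) c := by
  classical
  induction s using Finset.induction with
  | empty => rw [Finset.sum_empty, Finset.sum_empty, g_zero_left hg]
  | insert a s ha ih => rw [Finset.sum_insert ha, Finset.sum_insert ha, hg.add, ih]

theorem g_sum_right (hg : Alt g) {ι : Type} (s : Finset ι) (v : ι → Fin f → ZMod p)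
    (c : Fin f → ZMod p) : g c (∑ i ∈ s, v i) = ∑ i ∈ s, g c (v i) := by
  classical
  induction s using Finset.induction with
  | empty => rw [Finset.sum_empty, Finset.sum_empty, g_zero_right hg]
  | insert a s ha ih => rw [Finset.sum_insert ha, Finset.sum_insert ha, g_add_right hg, ih]

/-- the form as a bilinear map -/
noncomputable def BL (hg : Alt g) :
    LinearMap.BilinForm (ZMod p) ((Fin f → ZMod p) × (Fin f → ZMod p)) :=
  LinearMap.mk₂ (ZMod p) (BB g)
    (fun x y x' => by
      unfold BB
      rw [Prod.fst_add, Prod.snd_add, hg.add, dot_add_left, dot_add_right]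
      ring)
    (fun r x x' => by
      unfold BB
      rw [Prod.smul_fst, Prod.smul_snd, g_smul_left hg, dot_smul_left, dot_smul_right, smul_eq_mul]
      ring)
    (fun x x' y' => by
      unfold BB
      rw [Prod.fst_add, Prod.snd_add, g_add_right hg, dot_add_left, dot_add_right]
      ring)
    (fun r x x' => by
      unfold BB
      rw [Prod.smul_fst, Prod.smul_snd, g_smul_right hg, dot_smul_left, dot_smul_right, smul_eq_mul]
      ring)

theorem BL_apply (hg : Alt g) (x x' : (Fin f → ZMod p) × (Fin f → ZMod p)) :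
    BL hg x x' = BB g x x' := rfl

theorem BB_anti (hg : Alt g) (x x' : (Fin f → ZMod p) × (Fin f → ZMod p)) :
    BB g x x' = - BB g x' x := by
  unfold BB
  rw [hg.anti x.1 x'.1]
  ring

theorem BB_sep (hg : Alt g) (x : (Fin f → ZMod p) × (Fin f → ZMod p)) (h : ∀ x', BB g x x' = 0) :
    x = 0 := by
  have h1 : x.1 = 0 := by
    funext l
    have h2 := h (0, Pi.single l 1)
    unfold BB at h2
    rw [g_zero_right hg, dot_single, dot_zero_left, zero_add, sub_zero] at h2
    exact h2
  have h2 : x.2 = 0 := by
    funext l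
    have h3 := h (Pi.single l 1, 0)
    unfold BB at h3
    rw [h1, g_zero_left hg, dot_zero_left, single_dot, zero_add, zero_sub, neg_eq_zero] at h3
    exact h3
  exact Prod.ext h1 h2

theorem BL_nondeg (hg : Alt g) : (BL hg).Nondegenerate := by
  refine ⟨fun x h => BB_sep hg x fun x' => h x', fun x h => BB_sep hg x fun x' => ?_⟩
  rw [BB_anti hg, ← BL_apply hg, h x', neg_zero]

/-- **A maximal isotropic subspace is its own orthogonal.** -/
theorem mem_of_orth (hg : Alt g)
    {E : Submodule (ZMod p) ((Fin f → ZMod p) × (Fin f → ZMod p))} (hE : IsoX g E)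
    (x : (Fin f → ZMod p) × (Fin f → ZMod p)) (h : ∀ x' ∈ E, BB g x' x = 0) : x ∈ E := by
  have h1 : E ≤ (BL hg).orthogonal E := by
    intro y hy
    rw [LinearMap.BilinForm.mem_orthogonal_iff]
    intro n hn
    exact hE.iso n hn y hy
  have h2 : f ≤ finrank (ZMod p) E := by
    have h3 := hE.num
    have h4 : Nat.card E = p ^ finrank (ZMod p) E := by
      rw [Module.natCard_eq_pow_finrank (K := ZMod p) (V := E), Nat.card_zmod]
    rw [h4] at h3
    exact (Nat.pow_le_pow_iff_right (Fact.out (p := p.Prime)).one_lt).1 h3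
  have h3 := LinearMap.BilinForm.finrank_orthogonal (BL_nondeg hg) E
  have h4 : finrank (ZMod p) ((Fin f → ZMod p) × (Fin f → ZMod p)) = f + f := by
    rw [Module.finrank_prod, Module.finrank_fintype_fun_eq_card, Fintype.card_fin]
  rw [h4] at h3
  have h5 : E = (BL hg).orthogonal E := by
    refine Submodule.eq_of_le_of_finrank_le h1 ?_
    rw [h3]
    omega
  rw [h5, LinearMap.BilinForm.mem_orthogonal_iff]
  intro n hn
  exact h n hn

end

end Pool.Agent.Q223.EN
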