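import Mathlib

/-!
# The curve `y² = x³ + D x` over a field containing `i`
-/

set_option autoImplicit false

namespace Pool.Agent.Q223.EN

open WeierstrassCurve

variable {F : Type*} [Field F] [DecidableEq F]

/-- the curve `y² = x³ + D x` -/
structure IsQ (V : WeierstrassCurve F) (D : F) : Prop where
  h1 : V.a₁ = 0
  h2 : V.a₂ = 0
  h3 : V.a₃ = 0
  h4 : V.a₄ = D
  h6 : V.a₆ = 0

variable {V : WeierstrassCurve F} {D : F}

omit [DecidableEq F] in
theorem IsQ.eqn (hV : IsQ V D) (x y : F) : V.toAffine.Equation x y ↔ y ^ 2 = x ^ 3 + D * x := by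
  rw [Affine.equation_iff]
  show y ^ 2 + V.a₁ * x * y + V.a₃ * y = x ^ 3 + V.a₂ * x ^ 2 + V.a₄ * x + V.a₆ ↔ _
  rw [hV.h1, hV.h2, hV.h3, hV.h4, hV.h6]
  constructor
  · intro h; linear_combination h
  · intro h; linear_combination h

omit [DecidableEq F] in
theorem IsQ.negY (hV : IsQ V D) (x y : F) : V.toAffine.negY x y = -y := by
  show -y - V.a₁ * x - V.a₃ = -y
  rw [hV.h1, hV.h3]
  ring

omit [DecidableEq F] in
theorem IsQ.nons [CharZero F] (hV : IsQ V D) (hD : D ≠ 0) {x y : F} (he : y ^ 2 = x ^ 3 + D * x) :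
    V.toAffine.Nonsingular x y := by
  rw [Affine.nonsingular_iff]
  refine ⟨(hV.eqn x y).2 he, ?_⟩
  by_cases hy : y = 0
  · left
    show V.a₁ * y ≠ 3 * x ^ 2 + 2 * V.a₂ * x + V.a₄
    rw [hV.h1, hV.h2, hV.h4]
    intro h3
    subst hy
    have h4 : x * (x ^ 2 + D) = 0 := by linear_combination -he
    rcases mul_eq_zero.1 h4 with h5 | h5
    · subst h5
      apply hD
      linear_combination -h3
    · have h6 : (2 : F) * D = 0 := by linear_combination h3 + 3 * h5
      exact hD ((mul_eq_zero.1 h6).resolve_left two_ne_zero)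
  · right
    show y ≠ -y - V.a₁ * x - V.a₃
    rw [hV.h1, hV.h3]
    intro h5
    apply hy
    have h6 : (2 : F) * y = 0 := by linear_combination h5
    exact (mul_eq_zero.1 h6).resolve_left two_ne_zero

/-- the addition law -/
theorem IsQ.add_ex (hV : IsQ V D) {x1 y1 x2 y2 : F} (h1 : V.toAffine.Nonsingular x1 y1)
    (h2 : V.toAffine.Nonsingular x2 y2) (hxy : ¬ (x1 = x2 ∧ y1 = -y2)) :
    ∃ (ℓ X Y : F) (h : V.toAffine.Nonsingular X Y),
      (Affine.Point.some x1 y1 h1 : V.toAffine.Point) + .some x2 y2 h2 = .some X Y h ∧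
      X = ℓ ^ 2 - x1 - x2 ∧ Y = -(ℓ * (X - x1) + y1) ∧
      ((x1 ≠ x2 ∧ ℓ * (x1 - x2) = y1 - y2) ∨
        (x1 = x2 ∧ y1 = y2 ∧ 2 * y1 ≠ 0 ∧ ℓ * (2 * y1) = 3 * x1 ^ 2 + D)) := by
  have hxy' : ¬ (x1 = x2 ∧ y1 = V.toAffine.negY x2 y2) := by rwa [hV.negY]
  refine ⟨V.toAffine.slope x1 x2 y1 y2, _, _, _, Affine.Point.add_some hxy', ?_, ?_, ?_⟩
  · show _ ^ 2 + V.a₁ * _ - V.a₂ - x1 - x2 = _
    rw [hV.h1, hV.h2]
    ring
  · show -(_ * (_ ^ 2 + V.a₁ * _ - V.a₂ - x1 - x2 - x1) + y1) - V.a₁ * _ - V.a₃ =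
      -(_ * ((_ ^ 2 + V.a₁ * _ - V.a₂ - x1 - x2) - x1) + y1)
    rw [hV.h1, hV.h3]
    ring
  · by_cases hx : x1 = x2
    · right
      subst hx
      have hy : y1 ≠ -y2 := fun h => hxy ⟨rfl, h⟩
      have e1 := (hV.eqn _ _).1 h1.1
      have e2 := (hV.eqn _ _).1 h2.1
      have e3 : (y1 - y2) * (y1 + y2) = 0 := by linear_combination e1 - e2
      have e4 : y1 + y2 ≠ 0 := fun h => hy (by linear_combination h)
      have e5 : y1 = y2 := by
        have := (mul_eq_zero.1 e3).resolve_right e4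
        linear_combination this
      subst e5
      have e6 : 2 * y1 ≠ 0 := by
        intro h
        apply e4
        linear_combination h
      refine ⟨rfl, rfl, e6, ?_⟩
      have hY : y1 ≠ V.toAffine.negY x1 y1 := by rwa [hV.negY]
      rw [Affine.slope_of_Y_ne rfl hY, hV.negY]
      show (3 * x1 ^ 2 + 2 * V.a₂ * x1 + V.a₄ - V.a₁ * y1) / (y1 - (-y1)) * (2 * y1) = _
      rw [hV.h1, hV.h2, hV.h4]
      have e7 : y1 - (-y1) ≠ 0 := by
        intro h
        apply e4
        linear_combination h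
      rw [div_mul_eq_mul_div, div_eq_iff e7]
      ring
    · left
      refine ⟨hx, ?_⟩
      rw [Affine.slope_of_X_ne hx, div_mul_cancel₀ _ (sub_ne_zero.2 hx)]

/-- opposite points -/
theorem IsQ.add_opp (hV : IsQ V D) {x1 y1 x2 y2 : F} (h1 : V.toAffine.Nonsingular x1 y1)
    (h2 : V.toAffine.Nonsingular x2 y2) (hxy : x1 = x2 ∧ y1 = -y2) :
    (Affine.Point.some x1 y1 h1 : V.toAffine.Point) + .some x2 y2 h2 = 0 :=
  Affine.Point.add_of_Y_eq hxy.1 (by rw [hV.negY]; exact hxy.2)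

variable [CharZero F]

omit [DecidableEq F] in
theorem IsQ.neg_nons (hV : IsQ V D) (hD : D ≠ 0) {x y : F} (h : V.toAffine.Nonsingular x y) :
    V.toAffine.Nonsingular x (-y) := by
  apply hV.nons hD
  have := (hV.eqn _ _).1 h.1
  linear_combination this

omit [DecidableEq F] [CharZero F] in
theorem IsQ.neg_eq (hV : IsQ V D) {x y : F} (h : V.toAffine.Nonsingular x y)
    (h' : V.toAffine.Nonsingular x (-y)) :
    -(Affine.Point.some x y h : V.toAffine.Point) = .some x (-y) h' := by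
  rw [Affine.Point.neg_some]
  congr 1
  exact hV.negY x y

section I

variable {I : F}

omit [DecidableEq F] [CharZero F] in
theorem neI (hI : I ^ 2 = -1) : I ≠ 0 := by
  rintro rfl
  have : (1 : F) = 0 := by linear_combination hI
  exact one_ne_zero this

omit [DecidableEq F] in
theorem subI (hI : I ^ 2 = -1) : 1 - I ≠ 0 := by
  intro h
  have h3 : (2 : F) = 0 := by linear_combination hI + (I + 1) * h
  exact two_ne_zero h3

omit [DecidableEq F] in
theorem IsQ.im_nons (hV : IsQ V D) (hD : D ≠ 0) (hI : I ^ 2 = -1) {x y : F}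
    (h : V.toAffine.Nonsingular x y) : V.toAffine.Nonsingular (-x) (I * y) := by
  apply hV.nons hD
  have := (hV.eqn _ _).1 h.1
  linear_combination y ^ 2 * hI - this

omit [DecidableEq F] in
/-- multiplication by `i`, as a map -/
def imf (hV : IsQ V D) (hD : D ≠ 0) (hI : I ^ 2 = -1) : V.toAffine.Point → V.toAffine.Point
  | 0 => 0
  | .some x y h => .some (-x) (I * y) (hV.im_nons hD hI h)

omit [DecidableEq F] in
theorem imf_some (hV : IsQ V D) (hD : D ≠ 0) (hI : I ^ 2 = -1) {x y : F}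
    (h : V.toAffine.Nonsingular x y) :
    imf hV hD hI (.some x y h) = .some (-x) (I * y) (hV.im_nons hD hI h) := rfl

theorem imf_add (hV : IsQ V D) (hD : D ≠ 0) (hI : I ^ 2 = -1) (P Q : V.toAffine.Point) :
    imf hV hD hI (P + Q) = imf hV hD hI P + imf hV hD hI Q := by
  have hI0 := neI hI
  rcases P with _ | ⟨x1, y1, h1⟩
  · show imf hV hD hI (0 + Q) = 0 + _
    rw [zero_add, zero_add]
  rcases Q with _ | ⟨x2, y2, h2⟩
  · show imf hV hD hI (_ + 0) = _ + 0
    rw [add_zero, add_zero]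
  by_cases hxy : x1 = x2 ∧ y1 = -y2
  · rw [hV.add_opp h1 h2 hxy, imf_some, imf_some, hV.add_opp]
    · rfl
    · rw [hxy.1, hxy.2]
      exact ⟨rfl, by ring⟩
  · obtain ⟨ℓ, X, Y, h, e, eX, eY, hs⟩ := hV.add_ex h1 h2 hxy
    have hxy' : ¬ (-x1 = -x2 ∧ I * y1 = -(I * y2)) := by
      rintro ⟨h3, h4⟩
      exact hxy ⟨neg_injective h3, mul_left_cancel₀ hI0 (by rw [h4]; ring)⟩
    obtain ⟨m, X', Y', h', e', eX', eY', hs'⟩ :=
      hV.add_ex (hV.im_nons hD hI h1) (hV.im_nons hD hI h2) hxy'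
    have hm : m = -I * ℓ := by
      rcases hs with ⟨g1, g2⟩ | ⟨g1, g2, g3, g4⟩
      · rcases hs' with ⟨g1', g2'⟩ | ⟨g1', -⟩
        · have h3 : (x1 - x2) ≠ 0 := sub_ne_zero.2 g1
          apply mul_right_cancel₀ h3
          linear_combination -g2' + I * g2
        · exact absurd (neg_injective g1') g1
      · rcases hs' with ⟨g1', -⟩ | ⟨g1', g2', g3', g4'⟩
        · exact absurd (by rw [g1]) g1'
        · apply mul_right_cancel₀ g3'
          linear_combination g4' + (-1 : F) * g4 + 2 * y1 * ℓ * hI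
    rw [e, imf_some, imf_some, imf_some, e']
    have hX : -X = X' := by
      rw [eX, eX', hm]
      linear_combination (-ℓ ^ 2) * hI
    have hY : I * Y = Y' := by
      rw [eY, eY', ← hX, hm]
      ring
    rw [Affine.Point.some.injEq]
    exact ⟨hX, hY⟩

/-- multiplication by `i` -/
def im (hV : IsQ V D) (hD : D ≠ 0) (hI : I ^ 2 = -1) : V.toAffine.Point →+ V.toAffine.Point where
  toFun := imf hV hD hI
  map_zero' := rfl
  map_add' := imf_add hV hD hI

theorem im_some (hV : IsQ V D) (hD : D ≠ 0) (hI : I ^ 2 = -1) {x y : F}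
    (h : V.toAffine.Nonsingular x y) :
    im hV hD hI (.some x y h) = .some (-x) (I * y) (hV.im_nons hD hI h) := rfl

theorem im_im (hV : IsQ V D) (hD : D ≠ 0) (hI : I ^ 2 = -1) (P : V.toAffine.Point) :
    im hV hD hI (im hV hD hI P) = -P := by
  rcases P with _ | ⟨x, y, h⟩
  · show im hV hD hI (im hV hD hI 0) = -0
    rw [map_zero, map_zero, neg_zero]
  · rw [im_some, im_some, hV.neg_eq _ (hV.neg_nons hD h), Affine.Point.some.injEq]
    exact ⟨by ring, by linear_combination y * hI⟩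

/-- the kernel of `1 + i` -/
theorem ker_im (hV : IsQ V D) (hD : D ≠ 0) (hI : I ^ 2 = -1) (P : V.toAffine.Point) :
    P + im hV hD hI P = 0 ↔ P = 0 ∨ ∃ h, P = .some 0 0 h := by
  constructor
  · intro h
    rcases P with _ | ⟨x, y, hn⟩
    · left
      rfl
    · right
      have he := (hV.eqn _ _).1 hn.1
      have h1 : im hV hD hI (.some x y hn) = -(.some x y hn) := (neg_eq_of_add_eq_zero_right h).symm
      rw [im_some, hV.neg_eq _ (hV.neg_nons hD hn), Affine.Point.some.injEq] at h1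
      have h2 : (2 : F) * x = 0 := by linear_combination -h1.1
      have hx : x = 0 := (mul_eq_zero.1 h2).resolve_left two_ne_zero
      subst hx
      have hy : y = 0 := by
        have : y ^ 2 = 0 := by rw [he]; ring
        exact pow_eq_zero_iff two_ne_zero |>.1 this
      subst hy
      exact ⟨hn, rfl⟩
  · rintro (rfl | ⟨h, rfl⟩)
    · rw [map_zero, zero_add]
    · rw [im_some]
      exact hV.add_opp _ _ ⟨by ring, by ring⟩

/-- `1 + i` -/
theorem one_add_im (hV : IsQ V D) (hD : D ≠ 0) (hI : I ^ 2 = -1) {x y : F}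
    (hn : V.toAffine.Nonsingular x y) (hx : x ≠ 0) :
    ∃ (ℓ Y : F) (h : V.toAffine.Nonsingular (ℓ ^ 2) Y),
      (Affine.Point.some x _ hn : V.toAffine.Point) + im hV hD hI (.some x _ hn) = .some (ℓ ^ 2) Y h ∧
      ℓ * (2 * x) = (1 - I) * y := by
  have h0 := hV.im_nons hD hI hn
  rw [im_some]
  have hx2 : x ≠ -x := by
    intro h3
    have h4 : (2 : F) * x = 0 := by linear_combination h3
    exact hx ((mul_eq_zero.1 h4).resolve_left two_ne_zero)
  have hxy : ¬ (x = -x ∧ y = -(I * y)) := fun h => hx2 h.1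
  obtain ⟨ℓ, X, Y, h, e, eX, eY, hs⟩ := hV.add_ex hn h0 hxy
  have hX : X = ℓ ^ 2 := by rw [eX]; ring
  subst hX
  refine ⟨ℓ, Y, h, e, ?_⟩
  rcases hs with ⟨-, k1⟩ | ⟨k1, -⟩
  · linear_combination k1
  · exact absurd k1 hx2

omit [DecidableEq F] [CharZero F] in
theorem formula (hI : I ^ 2 = -1) {x y ℓ : F} (h : ℓ * (2 * x) = (1 - I) * y) (h2 : (2 : F) ≠ 0) :
    ℓ ^ 2 * (2 * I * x ^ 2) = y ^ 2 := by
  apply mul_left_cancel₀ h2
  linear_combination I * (ℓ * (2 * x) + (1 - I) * y) * h + (I - 2) * y ^ 2 * hI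

/-- the points of square class are the values of `1 + i`: the point `(λ², y)`, `λ ≠ 0` -/
theorem theta_of_sq (hV : IsQ V D) (hD : D ≠ 0) (hI : I ^ 2 = -1) {l y : F} (hl : l ≠ 0)
    (hn : V.toAffine.Nonsingular (l ^ 2) y) :
    ∃ R : V.toAffine.Point, .some (l ^ 2) y hn = R + im hV hD hI R := by
  have h2 : (2 : F) ≠ 0 := two_ne_zero
  have hI0 := neI hI
  have he := (hV.eqn _ _).1 hn.1
  obtain ⟨z, hz⟩ : ∃ z : F, y = z * l := ⟨y / l, by field_simp⟩
  have hz2 : z ^ 2 = l ^ 4 + D := by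
    have h3 : l ^ 2 ≠ 0 := pow_ne_zero 2 hl
    apply mul_right_cancel₀ h3
    rw [hz] at he
    linear_combination he
  set r : F := I * (l ^ 2 + z) with hr
  have hq : r ^ 2 - 2 * I * l ^ 2 * r + D = 0 := by
    rw [hr]
    linear_combination ((l ^ 2 + z) ^ 2 - 2 * l ^ 2 * (l ^ 2 + z)) * hI - hz2
  have hr0 : r ≠ 0 := by
    intro h
    rw [h] at hq
    apply hD
    linear_combination hq
  have hnr : V.toAffine.Nonsingular r ((1 + I) * l * r) := by
    apply hV.nons hD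
    linear_combination l ^ 2 * r ^ 2 * hI - r * hq
  obtain ⟨ℓ, Y, h, e, hℓ⟩ := one_add_im hV hD hI hnr hr0
  have hX : ℓ ^ 2 = l ^ 2 := by
    have h3 := formula hI hℓ h2
    have h4 : (2 * I * r ^ 2) ≠ 0 := mul_ne_zero (mul_ne_zero h2 hI0) (pow_ne_zero 2 hr0)
    apply mul_right_cancel₀ h4
    linear_combination h3 + l ^ 2 * r ^ 2 * hI
  have hY := (hV.eqn _ _).1 h.1
  have h5 : (y - Y) * (y + Y) = 0 := by
    rw [hX] at hY
    linear_combination he - hY
  rcases mul_eq_zero.1 h5 with h6 | h6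
  · refine ⟨.some _ _ hnr, ?_⟩
    rw [e, Affine.Point.some.injEq]
    exact ⟨hX.symm, by linear_combination h6⟩
  · refine ⟨-.some _ _ hnr, ?_⟩
    rw [map_neg, ← neg_add, e, hV.neg_eq _ (hV.neg_nons hD h), Affine.Point.some.injEq]
    exact ⟨hX.symm, by linear_combination h6⟩

/-- the points of square class are the values of `1 + i`: the point `(0, 0)` -/
theorem theta_of_zero (hV : IsQ V D) (hD : D ≠ 0) (hI : I ^ 2 = -1) {d : F} (hd : D = d ^ 2)
    (hn : V.toAffine.Nonsingular 0 0) :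
    ∃ R : V.toAffine.Point, .some 0 0 hn = R + im hV hD hI R := by
  have hI0 := neI hI
  have hd0 : d ≠ 0 := by
    rintro rfl
    apply hD
    rw [hd]
    ring
  have hnr : V.toAffine.Nonsingular (I * d) 0 := by
    apply hV.nons hD
    rw [hd]
    linear_combination (-I * d ^ 3) * hI
  obtain ⟨ℓ, Y, h, e, hℓ⟩ := one_add_im hV hD hI hnr (mul_ne_zero hI0 hd0)
  have hl : ℓ = 0 := by
    have h3 : ℓ * (2 * (I * d)) = 0 := by rw [hℓ]; ring
    exact (mul_eq_zero.1 h3).resolve_right (mul_ne_zero two_ne_zero (mul_ne_zero hI0 hd0))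
  have hY := (hV.eqn _ _).1 h.1
  rw [hl] at hY
  have hY0 : Y = 0 := by
    have : Y ^ 2 = 0 := by rw [hY]; ring
    exact pow_eq_zero_iff two_ne_zero |>.1 this
  refine ⟨.some _ _ hnr, ?_⟩
  rw [e, Affine.Point.some.injEq]
  exact ⟨by rw [hl]; ring, hY0.symm⟩

/-- the values of `1 + i` -/
theorem theta_val (hV : IsQ V D) (hD : D ≠ 0) (hI : I ^ 2 = -1) (R : V.toAffine.Point) :
    R + im hV hD hI R = 0 ∨ ((∃ h, R + im hV hD hI R = .some 0 0 h) ∧ ∃ d, D = d ^ 2) ∨
      ∃ (l Y : F) (h : V.toAffine.Nonsingular (l ^ 2) Y), l ≠ 0 ∧ R + im hV hD hI R = .some (l ^ 2) Y h := by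
  rcases R with _ | ⟨x, y, hn⟩
  · left
    show 0 + im hV hD hI 0 = 0
    rw [map_zero, zero_add]
  have he := (hV.eqn _ _).1 hn.1
  by_cases hx : x = 0
  · left
    subst hx
    have hy : y = 0 := by
      have : y ^ 2 = 0 := by rw [he]; ring
      exact pow_eq_zero_iff two_ne_zero |>.1 this
    subst hy
    exact (ker_im hV hD hI _).2 (Or.inr ⟨hn, rfl⟩)
  right
  obtain ⟨ℓ, Y, h, e, hℓ⟩ := one_add_im hV hD hI hn hx
  by_cases hl : ℓ = 0
  · left
    subst hl
    have hy : y = 0 := by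
      have h3 : (1 - I) * y = 0 := by rw [← hℓ]; ring
      exact (mul_eq_zero.1 h3).resolve_left (subI hI)
    have hY := (hV.eqn _ _).1 h.1
    have hY0 : Y = 0 := by
      have : Y ^ 2 = 0 := by rw [hY]; ring
      exact pow_eq_zero_iff two_ne_zero |>.1 this
    have h00 : V.toAffine.Nonsingular 0 0 := hV.nons hD (by ring)
    refine ⟨⟨h00, ?_⟩, I * x, ?_⟩
    · rw [e, Affine.Point.some.injEq]
      exact ⟨by ring, hY0⟩
    · have h4 : x * (x ^ 2 + D) = 0 := by
        rw [hy] at he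
        linear_combination -he
      have h5 := (mul_eq_zero.1 h4).resolve_left hx
      linear_combination h5 - x ^ 2 * hI
  · right
    exact ⟨ℓ, Y, h, hl, e⟩

end I

end Pool.Agent.Q223.EN
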