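import Pool.Agent.Q283.EN.Stm2
import Pool.Agent.Q223.EN.QEll

/-!
# Project EN (helper283), job QFEND: the endomorphisms `1 + i`, `1 - i` of `y² = x³ + D x`
-/

set_option autoImplicit false

namespace Pool.Agent.Q223.EN

open WeierstrassCurve Pool.Agent.Q283.EN
open Pool.Agent.TH841.SH.D (Pt act)

section

variable {F : Type} [Field F]

theorem isQ_base (D : F) (L : Type) [Field L] [Algebra F L] :
    IsQ ((EQ D).baseChange L) (algebraMap F L D) :=
  ⟨map_zero _, map_zero _, map_zero _, rfl, map_zero _⟩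

theorem sq_map {i : F} (hi : i ^ 2 = -1) (L : Type) [Field L] [Algebra F L] : (algebraMap F L i) ^ 2 = -1 := by
  rw [← map_pow, hi, map_neg, map_one]

variable [CharZero F] {i D : F}

/-- multiplication by `i` on the points -/
noncomputable def imP (hD : D ≠ 0) (hi : i ^ 2 = -1) (L : Type) [Field L] [Algebra F L] :
    Pt (EQ D) L →+ Pt (EQ D) L :=
  @im L _ (Classical.decEq L) ((EQ D).baseChange L) (algebraMap F L D)
    (charZero_of_injective_algebraMap (algebraMap F L).injective) (algebraMap F L i)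
    (isQ_base D L) ((map_ne_zero _).2 hD) (sq_map hi L)

theorem imP_imP (hD : D ≠ 0) (hi : i ^ 2 = -1) (L : Type) [Field L] [Algebra F L]
    (P : Pt (EQ D) L) : imP hD hi L (imP hD hi L P) = -P :=
  @im_im L _ (Classical.decEq L) ((EQ D).baseChange L) (algebraMap F L D)
    (charZero_of_injective_algebraMap (algebraMap F L).injective) (algebraMap F L i)
    (isQ_base D L) ((map_ne_zero _).2 hD) (sq_map hi L) P

theorem imP_ker (hD : D ≠ 0) (hi : i ^ 2 = -1) (L : Type) [Field L] [Algebra F L]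
    (P : Pt (EQ D) L) : P + imP hD hi L P = 0 ↔ P = 0 ∨ ∃ h, P = Affine.Point.some 0 0 h :=
  @ker_im L _ (Classical.decEq L) ((EQ D).baseChange L) (algebraMap F L D)
    (charZero_of_injective_algebraMap (algebraMap F L).injective) (algebraMap F L i)
    (isQ_base D L) ((map_ne_zero _).2 hD) (sq_map hi L) P

theorem imP_one (hD : D ≠ 0) (hi : i ^ 2 = -1) (L : Type) [Field L] [Algebra F L] {x y : L}
    (hn : ((EQ D).baseChange L).toAffine.Nonsingular x y) (hx : x ≠ 0) (P : Pt (EQ D) L)
    (hP : P = Affine.Point.some x y hn) :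
    ∃ (l Y : L) (h : ((EQ D).baseChange L).toAffine.Nonsingular (l ^ 2) Y),
      P + imP hD hi L P = Affine.Point.some (l ^ 2) Y h ∧
      l * (2 * x) = (1 - algebraMap F L i) * y := by
  subst hP
  exact @one_add_im L _ (Classical.decEq L) ((EQ D).baseChange L) (algebraMap F L D)
    (charZero_of_injective_algebraMap (algebraMap F L).injective) (algebraMap F L i)
    (isQ_base D L) ((map_ne_zero _).2 hD) (sq_map hi L) x y hn hx

theorem imP_sq (hD : D ≠ 0) (hi : i ^ 2 = -1) (L : Type) [Field L] [Algebra F L] {l y : L} (hl : l ≠ 0)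
    (hn : ((EQ D).baseChange L).toAffine.Nonsingular (l ^ 2) y) :
    ∃ R : Pt (EQ D) L, Affine.Point.some (l ^ 2) y hn = R + imP hD hi L R :=
  @theta_of_sq L _ (Classical.decEq L) ((EQ D).baseChange L) (algebraMap F L D)
    (charZero_of_injective_algebraMap (algebraMap F L).injective) (algebraMap F L i)
    (isQ_base D L) ((map_ne_zero _).2 hD) (sq_map hi L) l y hl hn

theorem imP_zero (hD : D ≠ 0) (hi : i ^ 2 = -1) (L : Type) [Field L] [Algebra F L] {d : L}
    (hd : algebraMap F L D = d ^ 2) (hn : ((EQ D).baseChange L).toAffine.Nonsingular 0 0) :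
    ∃ R : Pt (EQ D) L, Affine.Point.some 0 0 hn = R + imP hD hi L R :=
  @theta_of_zero L _ (Classical.decEq L) ((EQ D).baseChange L) (algebraMap F L D)
    (charZero_of_injective_algebraMap (algebraMap F L).injective) (algebraMap F L i)
    (isQ_base D L) ((map_ne_zero _).2 hD) (sq_map hi L) d hd hn

theorem imP_val (hD : D ≠ 0) (hi : i ^ 2 = -1) (L : Type) [Field L] [Algebra F L] (R : Pt (EQ D) L) :
    R + imP hD hi L R = 0 ∨ ((∃ h, R + imP hD hi L R = Affine.Point.some 0 0 h) ∧ ∃ d, algebraMap F L D = d ^ 2) ∨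
      ∃ (l Y : L) (h : ((EQ D).baseChange L).toAffine.Nonsingular (l ^ 2) Y),
        l ≠ 0 ∧ R + imP hD hi L R = Affine.Point.some (l ^ 2) Y h :=
  @theta_val L _ (Classical.decEq L) ((EQ D).baseChange L) (algebraMap F L D)
    (charZero_of_injective_algebraMap (algebraMap F L).injective) (algebraMap F L i)
    (isQ_base D L) ((map_ne_zero _).2 hD) (sq_map hi L) R

theorem imP_act (hD : D ≠ 0) (hi : i ^ 2 = -1) {L L' : Type} [Field L] [Algebra F L] [Field L']
    [Algebra F L'] (φ : L →ₐ[F] L') (P : Pt (EQ D) L) :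
    act (EQ D) φ (imP hD hi L P) = imP hD hi L' (act (EQ D) φ P) := by
  rcases P with _ | ⟨x, y, h⟩
  · rfl
  · show (Affine.Point.some (φ (-x)) (φ (algebraMap F L i * y)) _ : ((EQ D).baseChange L').toAffine.Point) =
      Affine.Point.some (-(φ x)) (algebraMap F L' i * φ y) _
    rw [Affine.Point.some.injEq]
    exact ⟨map_neg _ _, by rw [map_mul, AlgHom.commutes]⟩

/-- the points of square class are the values of `1 + i` -/
theorem cq_iff (hD : D ≠ 0) (hi : i ^ 2 = -1) (L : Type) [Field L] [Algebra F L] (P : Pt (EQ D) L) {s : L}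
    (hs : s ≠ 0) : CQ D L P (s ^ 2) ↔ ∃ R, P = R + imP hD hi L R := by
  constructor
  · rintro ⟨-, ⟨rfl, -⟩ | ⟨⟨h, rfl⟩, t, ht⟩ | ⟨x, y, h, t, rfl, hx, ht, he⟩⟩
    · exact ⟨0, by rw [map_zero, zero_add]⟩
    · refine imP_zero hD hi L (d := t / s) ?_ h
      rw [div_pow, eq_div_iff (pow_ne_zero 2 hs)]
      linear_combination ht
    · have hx2 : x = (s / t) ^ 2 := by
        rw [div_pow, eq_div_iff (pow_ne_zero 2 ht)]
        exact he.symm
      subst hx2
      exact imP_sq hD hi L (div_ne_zero hs ht) h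
  · rintro ⟨R, rfl⟩
    refine ⟨pow_ne_zero 2 hs, ?_⟩
    rcases imP_val hD hi L R with h | ⟨⟨h, e⟩, d, hd⟩ | ⟨l, Y, h, hl, e⟩
    · exact Or.inl ⟨h, s, rfl⟩
    · exact Or.inr (Or.inl ⟨⟨h, e⟩, s * d, by rw [hd]; ring⟩)
    · refine Or.inr (Or.inr ⟨l ^ 2, Y, h, s / l, e, pow_ne_zero 2 hl, div_ne_zero hs hl, ?_⟩)
      field_simp

/-- `1 + i` is surjective over algebraically closed fields -/
theorem imP_surj (hD : D ≠ 0) (hi : i ^ 2 = -1) (L : Type) [Field L] [Algebra F L] [IsAlgClosed L]
    (P : Pt (EQ D) L) : ∃ R, P = R + imP hD hi L R := by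
  rw [← cq_iff hD hi L P one_ne_zero]
  refine ⟨by norm_num, ?_⟩
  rcases P with _ | ⟨x, y, h⟩
  · exact Or.inl ⟨rfl, 1, by norm_num⟩
  right
  by_cases hx : x = 0
  · left
    subst hx
    have he := ((isQ_base D L).eqn 0 y).1 h.1
    have hy : y = 0 := by
      have : y ^ 2 = 0 := by rw [he]; ring
      exact pow_eq_zero_iff two_ne_zero |>.1 this
    subst hy
    obtain ⟨t, ht⟩ := IsAlgClosed.exists_pow_nat_eq (algebraMap F L D) (n := 2) (by norm_num)
    exact ⟨⟨h, rfl⟩, t, by rw [ht]; ring⟩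
  · right
    obtain ⟨t, ht⟩ := IsAlgClosed.exists_pow_nat_eq (x⁻¹) (n := 2) (by norm_num)
    refine ⟨x, y, h, t, rfl, hx, ?_, ?_⟩
    · rintro rfl
      apply inv_ne_zero hx
      rw [← ht]
      norm_num
    · rw [ht, mul_inv_cancel₀ hx]
      norm_num

end

theorem qfend : S_QFEND := by
  intro F _ _ i D hi hD
  refine ⟨fun L _ _ => AddMonoidHom.id (Pt (EQ D) L) + imP hD hi L,
    fun L _ _ => AddMonoidHom.id (Pt (EQ D) L) - imP hD hi L, ?_, ?_, ?_, ?_, ?_, ?_⟩
  · intro L _ _ P
    constructor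
    · show (P + imP hD hi L P) - imP hD hi L (P + imP hD hi L P) = 2 • P
      rw [map_add, imP_imP]
      abel
    · show (P - imP hD hi L P) + imP hD hi L (P - imP hD hi L P) = 2 • P
      rw [map_sub, imP_imP]
      abel
  · intro L L' _ _ _ _ φ P
    constructor
    · show act (EQ D) φ (P + imP hD hi L P) = act (EQ D) φ P + imP hD hi L' (act (EQ D) φ P)
      rw [map_add, imP_act]
    · show act (EQ D) φ (P - imP hD hi L P) = act (EQ D) φ P - imP hD hi L' (act (EQ D) φ P)
      rw [map_sub, imP_act]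
  · intro L _ _ P
    constructor
    · exact imP_ker hD hi L P
    · rw [← imP_ker hD hi L P]
      show P - imP hD hi L P = 0 ↔ _
      have e : P - imP hD hi L P = -(imP hD hi L (P + imP hD hi L P)) := by
        rw [map_add, imP_imP]
        abel
      rw [e, neg_eq_zero]
      constructor
      · intro h
        have h2 : imP hD hi L (imP hD hi L (P + imP hD hi L P)) = 0 := by rw [h, map_zero]
        rwa [imP_imP, neg_eq_zero] at h2
      · intro h
        rw [h, map_zero]
  · intro L _ _ _ P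
    constructor
    · obtain ⟨R, hR⟩ := imP_surj hD hi L P
      exact ⟨R, hR.symm⟩
    · obtain ⟨R, hR⟩ := imP_surj hD hi L (imP hD hi L P)
      refine ⟨R, ?_⟩
      show R - imP hD hi L R = P
      have e : R - imP hD hi L R = -(imP hD hi L (R + imP hD hi L R)) := by
        rw [map_add, imP_imP]
        abel
      rw [e, ← hR, imP_imP, neg_neg]
  · intro L _ _ x y h hx
    obtain ⟨l, Y, h', e, hl⟩ := imP_one hD hi L h hx _ rfl
    refine ⟨l ^ 2, Y, h', e, ?_⟩
    have h2 : (2 : L) ≠ 0 := by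
      have : CharZero L := charZero_of_injective_algebraMap (algebraMap F L).injective
      exact two_ne_zero
    exact formula (sq_map hi L) hl h2
  · intro L _ _ P s hs
    exact cq_iff hD hi L P hs

end Pool.Agent.Q223.EN
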