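import Pool.Agent.Q223.EN.Form

/-! The radical of the form and the solutions. -/

set_option autoImplicit false

namespace Pool.Agent.Q223.EN

open Pool.Agent.Q7.LK Pool.Agent.Q283.EN Module

section
variable {p : ℕ} [Fact p.Prime] {f k : ℕ} {g : (Fin f → ZMod p) → (Fin f → ZMod p) → ZMod p}
  {w : Fin f → ZMod p} {z : Fin k → ZMod p}
  {E : Submodule (ZMod p) ((Fin f → ZMod p) × (Fin f → ZMod p))}
  {φ : Fin k → Fin f → ZMod p} {m : Fin k → Fin k → ZMod p}

/-- coordinates modulo the radical -/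
structure Dat (w : Fin f → ZMod p) (z : Fin k → ZMod p)
    (E : Submodule (ZMod p) ((Fin f → ZMod p) × (Fin f → ZMod p)))
    (φ : Fin k → Fin f → ZMod p) (n : ℕ) where
  P : (Fin k → ZMod p) →ₗ[ZMod p] (Fin n → ZMod p)
  hz : P z = 0
  ker : ∀ x ∈ XX E φ, P x.2 = 0 → ∃ α : ZMod p, x.2 = α • z
  σ : (Fin n → ZMod p) →ₗ[ZMod p] ((Fin f → ZMod p) × (Fin k → ZMod p))
  σX : ∀ v, σ v ∈ XX E φ
  Pσ : ∀ v, P (σ v).2 = v

theorem exists_dat (hk : 1 ≤ k) (hz : ∀ i, z i ≠ 0) (hw : (∑ j, z j • φ j, w) ∈ E) :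
    ∃ n : ℕ, n + 1 ≤ k ∧ k ≤ n + 1 + f ∧ Nonempty (Dat w z E φ n) := by
  classical
  let U : Submodule (ZMod p) (Fin k → ZMod p) :=
    (E.map (LinearMap.fst (ZMod p) (Fin f → ZMod p) (Fin f → ZMod p))).comap (Ph φ)
  have hU : ∀ Y, Y ∈ U ↔ ∃ c, (Ph φ Y, c) ∈ E := by
    intro Y
    constructor
    · rintro ⟨⟨a, c⟩, h1, h2⟩
      refine ⟨c, ?_⟩
      have h3 : a = Ph φ Y := h2
      rwa [← h3]
    · rintro ⟨c, hc⟩
      exact ⟨(Ph φ Y, c), hc, rfl⟩
  have hzU : z ∈ U := (hU z).2 ⟨w, hw⟩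
  have hz0 : (⟨z, hzU⟩ : U) ≠ 0 := by
    intro h
    have h1 : z = 0 := congrArg Subtype.val h
    exact hz ⟨0, hk⟩ (by rw [h1]; rfl)
  let N : Submodule (ZMod p) U := Submodule.span (ZMod p) {(⟨z, hzU⟩ : U)}
  let n := finrank (ZMod p) (U ⧸ N)
  have hn : finrank (ZMod p) U = n + 1 := by
    have h1 := Submodule.finrank_quotient_add_finrank N
    rw [finrank_span_singleton hz0] at h1
    exact h1.symm
  have hk1 : n + 1 ≤ k := by
    rw [← hn]
    refine (Submodule.finrank_le U).trans ?_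
    rw [finrank_fintype_fun_eq_card, Fintype.card_fin]
  have hk2 : k ≤ n + 1 + f := by
    have h1 := LinearMap.finrank_range_add_finrank_ker (Ph φ)
    rw [finrank_fintype_fun_eq_card, Fintype.card_fin] at h1
    have h2 : finrank (ZMod p) (LinearMap.range (Ph φ)) ≤ f := by
      refine (Submodule.finrank_le _).trans ?_
      rw [finrank_fintype_fun_eq_card, Fintype.card_fin]
    have h3 : LinearMap.ker (Ph φ) ≤ U := by
      intro Y hY
      rw [LinearMap.mem_ker] at hY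
      exact (hU Y).2 ⟨0, by rw [hY]; exact E.zero_mem⟩
    have h4 := Submodule.finrank_mono h3
    rw [hn] at h4
    omega
  refine ⟨n, hk1, hk2, ?_⟩
  let e : (U ⧸ N) ≃ₗ[ZMod p] (Fin n → ZMod p) := LinearEquiv.ofFinrankEq _ _ (by
    rw [finrank_fintype_fun_eq_card, Fintype.card_fin])
  let π : U →ₗ[ZMod p] (Fin n → ZMod p) := (e : (U ⧸ N) →ₗ[ZMod p] (Fin n → ZMod p)) ∘ₗ N.mkQ
  have hπs : Function.Surjective π := e.surjective.comp N.mkQ_surjective
  obtain ⟨P, hP⟩ := LinearMap.exists_extend π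
  have hP' : ∀ Y (hY : Y ∈ U), P Y = π ⟨Y, hY⟩ := fun Y hY => by
    rw [← hP]
    rfl
  have hXU : ∀ x ∈ XX E φ, x.2 ∈ U := fun x hx => (hU _).2 ⟨x.1, hx⟩
  let θ : XX E φ →ₗ[ZMod p] (Fin n → ZMod p) :=
    P ∘ₗ (LinearMap.snd (ZMod p) (Fin f → ZMod p) (Fin k → ZMod p)) ∘ₗ (XX E φ).subtype
  have hθ : LinearMap.range θ = ⊤ := by
    rw [LinearMap.range_eq_top]
    intro v
    obtain ⟨⟨Y, hY⟩, hv⟩ := hπs v
    obtain ⟨c, hc⟩ := (hU Y).1 hY
    refine ⟨⟨(c, Y), hc⟩, ?_⟩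
    change P Y = v
    rw [hP' Y hY, hv]
  obtain ⟨s, hs⟩ := θ.exists_rightInverse_of_surjective hθ
  refine ⟨{
    P := P
    hz := ?_
    ker := ?_
    σ := (XX E φ).subtype ∘ₗ s
    σX := fun v => (s v).2
    Pσ := fun v => ?_ }⟩
  · rw [hP' z hzU]
    change e (N.mkQ ⟨z, hzU⟩) = 0
    have h1 : N.mkQ ⟨z, hzU⟩ = 0 := by
      rw [Submodule.mkQ_apply, Submodule.Quotient.mk_eq_zero]
      exact Submodule.mem_span_singleton_self _
    rw [h1, map_zero]
  · intro x hx h0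
    rw [hP' x.2 (hXU x hx)] at h0
    change e (N.mkQ ⟨x.2, hXU x hx⟩) = 0 at h0
    rw [LinearEquiv.map_eq_zero_iff, Submodule.mkQ_apply, Submodule.Quotient.mk_eq_zero,
      Submodule.mem_span_singleton] at h0
    obtain ⟨α, hα⟩ := h0
    exact ⟨α, (congrArg Subtype.val hα).symm⟩
  · have h1 := LinearMap.congr_fun hs v
    exact h1

/-- the radical -/
def IsRad (w : Fin f → ZMod p) (z : Fin k → ZMod p)
    (E : Submodule (ZMod p) ((Fin f → ZMod p) × (Fin f → ZMod p)))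
    (φ : Fin k → Fin f → ZMod p) (m : Fin k → Fin k → ZMod p)
    (x : (Fin f → ZMod p) × (Fin k → ZMod p)) : Prop :=
  x ∈ XX E φ ∧ ∀ x' ∈ XX E φ, SS w z φ m x x' = 0

/-- the solutions -/
def IsSo (w : Fin f → ZMod p) (z : Fin k → ZMod p)
    (E : Submodule (ZMod p) ((Fin f → ZMod p) × (Fin f → ZMod p)))
    (φ : Fin k → Fin f → ZMod p) (m : Fin k → Fin k → ZMod p)
    (x : (Fin f → ZMod p) × (Fin k → ZMod p)) : Prop :=
  x ∈ XX E φ ∧ ∀ j, cnd w z φ m x j = 0

/-- the classes with `Y = 0` -/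
def IsK (E : Submodule (ZMod p) ((Fin f → ZMod p) × (Fin f → ZMod p))) (c : Fin f → ZMod p) : Prop :=
  ((0 : Fin f → ZMod p), c) ∈ E

theorem IsK.mem {c : Fin f → ZMod p} (hc : IsK E c) : (c, (0 : Fin k → ZMod p)) ∈ XX E φ := by
  rw [mem_XX]
  have h : ∑ j, ((0 : Fin k → ZMod p) j) • φ j = 0 := by simp
  change (∑ j, ((0 : Fin k → ZMod p) j) • φ j, c) ∈ E
  rw [h]
  exact hc

theorem IsK.of_mem {c : Fin f → ZMod p} (hc : (c, (0 : Fin k → ZMod p)) ∈ XX E φ) : IsK E c := by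
  rw [mem_XX] at hc
  have h : ∑ j, ((0 : Fin k → ZMod p) j) • φ j = 0 := by simp
  change (∑ j, ((0 : Fin k → ZMod p) j) • φ j, c) ∈ E at hc
  rw [h] at hc
  exact hc

theorem IsK.dot (hg : Alt g) (hE : IsoX g E) {c : Fin f → ZMod p} (hc : IsK E c)
    {v c' : Fin f → ZMod p} (h : (v, c') ∈ E) : dot v c = 0 := by
  have h1 := hE.iso _ h _ hc
  unfold BB at h1
  simp only at h1
  rwa [g_zero_right hg, dot_zero_left, zero_add, sub_zero] at h1

theorem IsK.rad (hg : Alt g) (hE : IsoX g E) {c : Fin f → ZMod p} (hc : IsK E c) :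
    IsRad w z E φ m (c, 0) := by
  refine ⟨hc.mem, fun x' hx' => ?_⟩
  unfold SS
  have h1 : ∑ j, x'.2 j * cnd w z φ m (c, 0) j = - Pool.Agent.Q7.LK.dot (∑ j, x'.2 j • φ j) c := by
    rw [dot_Ph, ← Finset.sum_neg_distrib]
    exact Finset.sum_congr rfl fun j _ => by rw [cnd_zero]; ring
  rw [h1, hc.dot hg hE ((mem_XX E φ x').1 hx'), neg_zero]

theorem IsRad.add {x y : (Fin f → ZMod p) × (Fin k → ZMod p)} (hx : IsRad w z E φ m x)
    (hy : IsRad w z E φ m y) : IsRad w z E φ m (x + y) :=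
  ⟨(XX E φ).add_mem hx.1 hy.1, fun x' hx' => by rw [SS_add_left, hx.2 x' hx', hy.2 x' hx', add_zero]⟩

theorem IsRad.smul {x : (Fin f → ZMod p) × (Fin k → ZMod p)} (hx : IsRad w z E φ m x) (r : ZMod p) :
    IsRad w z E φ m (r • x) :=
  ⟨(XX E φ).smul_mem r hx.1, fun x' hx' => by rw [SS_smul_left, hx.2 x' hx', mul_zero]⟩

theorem triv_rad (hz : ∀ i, z i ≠ 0) (hw : (∑ j, z j • φ j, w) ∈ E) :
    IsRad w z E φ m (w, z) := by
  refine ⟨hw, fun x' _ => ?_⟩
  unfold SS
  exact Finset.sum_eq_zero fun j _ => by rw [cnd_triv w z φ m hz, mul_zero]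

theorem IsSo.rad {x : (Fin f → ZMod p) × (Fin k → ZMod p)} (hx : IsSo w z E φ m x) :
    IsRad w z E φ m x := by
  refine ⟨hx.1, fun x' _ => ?_⟩
  unfold SS
  exact Finset.sum_eq_zero fun j _ => by rw [hx.2, mul_zero]

/-- an element of the radical is the sum of a solution and a class with `Y = 0` -/
theorem IsRad.exists (hg : Alt g) (hE : IsoX g E) (hφ : Submodule.span (ZMod p) (Set.range φ) = ⊤)
    {x : (Fin f → ZMod p) × (Fin k → ZMod p)} (hx : IsRad w z E φ m x) :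
    ∃ c, IsK E c ∧ IsSo w z E φ m (x - (c, 0)) := by
  classical
  -- the functional
  let F : (Fin k → ZMod p) →ₗ[ZMod p] ZMod p :=
    { toFun := fun Y => ∑ j, Y j * cnd w z φ m x j
      map_add' := fun Y Y' => by
        rw [← Finset.sum_add_distrib]
        exact Finset.sum_congr rfl fun j _ => by rw [Pi.add_apply]; ring
      map_smul' := fun r Y => by
        rw [RingHom.id_apply, smul_eq_mul, Finset.mul_sum]
        exact Finset.sum_congr rfl fun j _ => by rw [Pi.smul_apply, smul_eq_mul]; ring }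
  have hF : ∀ Y, F Y = ∑ j, Y j * cnd w z φ m x j := fun Y => rfl
  have hFU : ∀ Y c, (Ph φ Y, c) ∈ E → F Y = 0 := fun Y c h => hx.2 (c, Y) h
  have hsurj : LinearMap.range (Ph φ) = ⊤ := by
    unfold Ph
    rw [Fintype.range_linearCombination]
    exact hφ
  obtain ⟨s, hs⟩ := (Ph φ).exists_rightInverse_of_surjective hsurj
  have hs' : ∀ v, Ph φ (s v) = v := fun v => LinearMap.congr_fun hs v
  let c₀ : Fin f → ZMod p := fun l => F (s (Pi.single l 1))
  have hℓ : ∀ v, F (s v) = Pool.Agent.Q7.LK.dot v c₀ := by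
    intro v
    have h1 : v = ∑ l, v l • (Pi.single l 1 : Fin f → ZMod p) := by
      funext l
      simp [Finset.sum_apply, Pi.single_apply]
    conv_lhs => rw [h1]
    rw [map_sum, map_sum]
    unfold Pool.Agent.Q7.LK.dot
    exact Finset.sum_congr rfl fun l _ => by rw [map_smul, map_smul, smul_eq_mul]
  have hFY : ∀ Y, F Y = Pool.Agent.Q7.LK.dot (Ph φ Y) c₀ := by
    intro Y
    rw [← hℓ, ← sub_eq_zero, ← map_sub]
    refine hFU _ 0 ?_
    rw [map_sub, hs', sub_self]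
    exact E.zero_mem
  have hK : IsK E (-c₀) := by
    refine mem_of_orth hg hE _ fun x' hx' => ?_
    unfold BB
    simp only
    rw [g_zero_right hg, dot_zero_left, zero_add, sub_zero]
    have h1 : F (s x'.1) = 0 := hFU _ x'.2 (by rw [hs']; exact hx')
    rw [hℓ] at h1
    have h2 := dot_smul_right (-1 : ZMod p) x'.1 c₀
    rw [neg_one_smul, h1, mul_zero] at h2
    exact h2
  refine ⟨-c₀, hK, (XX E φ).sub_mem hx.1 hK.mem, fun j => ?_⟩
  rw [cnd_sub, cnd_zero, sub_neg_eq_add]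
  have h1 : F (Pi.single j 1) = cnd w z φ m x j := by
    rw [hF]
    simp [Pi.single_apply]
  have h2 : Ph φ (Pi.single j 1) = φ j := by
    rw [Ph_apply]
    simp [Pi.single_apply]
  rw [← h1, hFY, h2]
  have h3 := dot_smul_right (-1 : ZMod p) (φ j) c₀
  rw [neg_one_smul] at h3
  rw [h3]
  ring

/-- decomposition with respect to the coordinates -/
theorem Dat.decomp {n : ℕ} (d : Dat w z E φ n) (hw : (∑ j, z j • φ j, w) ∈ E)
    {x : (Fin f → ZMod p) × (Fin k → ZMod p)} (hx : x ∈ XX E φ) :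
    ∃ (c : Fin f → ZMod p) (α : ZMod p), IsK E c ∧ x = (c, 0) + α • (w, z) + d.σ (d.P x.2) := by
  have h1 : x - d.σ (d.P x.2) ∈ XX E φ := (XX E φ).sub_mem hx (d.σX _)
  obtain ⟨α, hα⟩ := d.ker _ h1 (by
    rw [Prod.snd_sub, map_sub, d.Pσ, sub_self])
  have h2 : x - d.σ (d.P x.2) - α • (w, z) = ((x - d.σ (d.P x.2) - α • (w, z)).1, 0) := by
    refine Prod.ext rfl ?_
    rw [Prod.snd_sub, hα, Prod.smul_snd, sub_self]
  have h3 : x - d.σ (d.P x.2) - α • (w, z) ∈ XX E φ :=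
    (XX E φ).sub_mem h1 ((XX E φ).smul_mem α hw)
  rw [h2] at h3
  refine ⟨_, α, IsK.of_mem h3, ?_⟩
  rw [← h2]
  abel

/-- the matrix of the form -/
def Dat.M {n : ℕ} (d : Dat w z E φ n) (m : Fin k → Fin k → ZMod p) : Matrix (Fin n) (Fin n) (ZMod p) :=
  Matrix.of fun a b => SS w z φ m (d.σ (Pi.single a 1)) (d.σ (Pi.single b 1))

theorem Dat.M_symm {n : ℕ} (d : Dat w z E φ n) (hg : Alt g) (hE : IsoX g E)
    (hm : ∀ i j, m i j - m j i = g (φ i) (φ j)) : (d.M m).IsSymm := by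
  ext a b
  exact SS_symm hg hE hm (d.σX _) (d.σX _)

theorem Dat.mulVec {n : ℕ} (d : Dat w z E φ n) (v : Fin n → ZMod p) (a : Fin n) :
    (d.M m).mulVec v a = SS w z φ m (d.σ (Pi.single a 1)) (d.σ v) := by
  have h1 : v = ∑ b, v b • (Pi.single b 1 : Fin n → ZMod p) := by
    funext l
    simp [Finset.sum_apply, Pi.single_apply]
  conv_rhs => rw [h1]
  rw [map_sum]
  have h2 : ∑ b, d.σ (v b • (Pi.single b 1 : Fin n → ZMod p)) =
      ∑ b, v b • d.σ (Pi.single b 1) := Finset.sum_congr rfl fun b _ => map_smul _ _ _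
  rw [h2, SS_sum_right]
  unfold Matrix.mulVec dotProduct
  exact Finset.sum_congr rfl fun b _ => mul_comm _ _

/-- the radical in the coordinates -/
theorem Dat.rad_iff {n : ℕ} (d : Dat w z E φ n) (hg : Alt g) (hE : IsoX g E)
    (hm : ∀ i j, m i j - m j i = g (φ i) (φ j)) (hz : ∀ i, z i ≠ 0)
    (hw : (∑ j, z j • φ j, w) ∈ E) (v : Fin n → ZMod p) :
    IsRad w z E φ m (d.σ v) ↔ (d.M m).mulVec v = 0 := by
  constructor
  · intro h
    funext a
    rw [d.mulVec, SS_symm hg hE hm (d.σX _) (d.σX _), h.2 _ (d.σX _)]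
    rfl
  · intro h
    refine ⟨d.σX v, fun x' hx' => ?_⟩
    obtain ⟨c, α, hc, hx'2⟩ := d.decomp hw hx'
    rw [hx'2, SS_add_right, SS_add_right]
    have h1 : SS w z φ m (d.σ v) (c, 0) = 0 := by
      rw [SS_symm hg hE hm (d.σX v) hc.mem]
      exact (hc.rad hg hE).2 _ (d.σX v)
    have h2 : SS w z φ m (d.σ v) (α • (w, z)) = 0 := by
      rw [SS_smul_right, SS_symm hg hE hm (d.σX v) hw, (triv_rad hz hw).2 _ (d.σX v), mul_zero]
    have h3 : SS w z φ m (d.σ v) (d.σ (d.P x'.2)) = 0 := by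
      generalize d.P x'.2 = u
      have h4 : u = ∑ b, u b • (Pi.single b 1 : Fin n → ZMod p) := by
        funext l
        simp [Finset.sum_apply, Pi.single_apply]
      rw [h4, map_sum]
      have h5 : ∑ b, d.σ (u b • (Pi.single b 1 : Fin n → ZMod p)) =
          ∑ b, u b • d.σ (Pi.single b 1) := Finset.sum_congr rfl fun b _ => map_smul _ _ _
      rw [h5, SS_sum_right]
      refine Finset.sum_eq_zero fun b _ => ?_
      rw [SS_symm hg hE hm (d.σX v) (d.σX _), ← d.mulVec, h]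
      exact mul_zero _
    rw [h1, h2, h3]
    ring

/-- **The number of the solutions.** -/
theorem Dat.card {n : ℕ} (d : Dat w z E φ n) (hk : 1 ≤ k) (hg : Alt g) (hE : IsoX g E)
    (hφ : Submodule.span (ZMod p) (Set.range φ) = ⊤)
    (hm : ∀ i j, m i j - m j i = g (φ i) (φ j)) (hz : ∀ i, z i ≠ 0)
    (hw : (∑ j, z j • φ j, w) ∈ E) :
    Nat.card {x // IsSo w z E φ m x} = p * Nat.card {v : Fin n → ZMod p // (d.M m).mulVec v = 0} := by
  classical
  -- the two descriptions of the radical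
  let A : {c // IsK E c} × {x // IsSo w z E φ m x} → {x // IsRad w z E φ m x} := fun y =>
    ⟨y.2.1 + (y.1.1, 0), y.2.2.rad.add (y.1.2.rad hg hE)⟩
  have hA : Function.Bijective A := by
    constructor
    · rintro ⟨⟨c, hc⟩, ⟨x, hx⟩⟩ ⟨⟨c', hc'⟩, ⟨x', hx'⟩⟩ h
      have h1 : x + (c, 0) = x' + (c', 0) := congrArg Subtype.val h
      have h2 : x - x' = (c' - c, 0) := by
        have h3 : ((c' - c, 0) : (Fin f → ZMod p) × (Fin k → ZMod p)) = (c', 0) - (c, 0) := by
          refine Prod.ext rfl ?_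
          rw [Prod.snd_sub, sub_self]
        rw [h3, sub_eq_sub_iff_add_eq_add, h1, add_comm]
      have h3 : ∀ j, dot (φ j) (c' - c) = 0 := by
        intro j
        have h4 := cnd_sub w z φ m x x' j
        rw [h2, hx.2, hx'.2, sub_self, cnd_zero, neg_eq_zero] at h4
        exact h4
      have h4 : c' - c = 0 := by
        funext l
        have h5 : ∀ v : Fin f → ZMod p, dot v (c' - c) = 0 := by
          intro v
          have h6 : v ∈ Submodule.span (ZMod p) (Set.range φ) := by rw [hφ]; trivial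
          induction h6 using Submodule.span_induction with
          | mem v hv =>
            obtain ⟨j, rfl⟩ := hv
            exact h3 j
          | zero => exact dot_zero_left _
          | add a b _ _ ha hb => rw [dot_add_left, ha, hb, add_zero]
          | smul r a _ ha => rw [dot_smul_left, ha, mul_zero]
        have h6 := h5 (Pi.single l 1)
        rw [single_dot] at h6
        exact h6
      have h5 : c = c' := (sub_eq_zero.1 h4).symm
      subst h5
      have h6 : x = x' := by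
        have h7 := h1
        exact add_right_cancel h7
      subst h6
      rfl
    · rintro ⟨x, hx⟩
      obtain ⟨c, hc, hs⟩ := hx.exists hg hE hφ
      refine ⟨(⟨c, hc⟩, ⟨_, hs⟩), Subtype.ext ?_⟩
      change x - (c, 0) + (c, 0) = x
      rw [sub_add_cancel]
  let B : {c // IsK E c} × (ZMod p × {v : Fin n → ZMod p // (d.M m).mulVec v = 0}) →
      {x // IsRad w z E φ m x} := fun y =>
    ⟨(y.1.1, 0) + y.2.1 • (w, z) + d.σ y.2.2.1,
      ((y.1.2.rad hg hE).add ((triv_rad hz hw).smul y.2.1)).add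
        ((d.rad_iff hg hE hm hz hw _).2 y.2.2.2)⟩
  have hB : Function.Bijective B := by
    constructor
    · rintro ⟨⟨c, hc⟩, α, ⟨v, hv⟩⟩ ⟨⟨c', hc'⟩, α', ⟨v', hv'⟩⟩ h
      have h1 : ((c, 0) : (Fin f → ZMod p) × (Fin k → ZMod p)) + α • (w, z) + d.σ v =
          (c', 0) + α' • (w, z) + d.σ v' := congrArg Subtype.val h
      have h2 := congrArg (fun x => d.P x.2) h1
      simp only [Prod.snd_add, Prod.smul_snd, map_add, map_smul, d.hz, d.Pσ, smul_zero,
        zero_add] at h2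
      subst h2
      have h3 := add_right_cancel h1
      have h4 := congrArg (fun x => x.2 ⟨0, hk⟩) h3
      simp only [Prod.snd_add, Prod.smul_snd, Pi.add_apply, Pi.zero_apply, Pi.smul_apply,
        smul_eq_mul, zero_add] at h4
      have h5 : α = α' := mul_right_cancel₀ (hz _) h4
      subst h5
      have h6 := add_right_cancel h3
      have h7 : c = c' := congrArg Prod.fst h6
      subst h7
      rfl
    · rintro ⟨x, hx⟩
      obtain ⟨c, α, hc, hxd⟩ := d.decomp hw hx.1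
      have h1 : IsRad w z E φ m (d.σ (d.P x.2)) := by
        have h2 : d.σ (d.P x.2) = x + (-1 : ZMod p) • ((c, 0) + α • (w, z)) := by
          have h3 : x - ((c, 0) + α • (w, z)) = d.σ (d.P x.2) := by
            rw [sub_eq_iff_eq_add]
            rw [add_comm]
            exact hxd
          rw [← h3, neg_one_smul, sub_eq_add_neg]
        rw [h2]
        exact hx.add (((hc.rad hg hE).add ((triv_rad hz hw).smul α)).smul _)
      refine ⟨(⟨c, hc⟩, α, ⟨d.P x.2, (d.rad_iff hg hE hm hz hw _).1 h1⟩), Subtype.ext ?_⟩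
      exact hxd.symm
  have h1 := Nat.card_congr ((Equiv.ofBijective A hA).trans (Equiv.ofBijective B hB).symm)
  rw [Nat.card_prod, Nat.card_prod, Nat.card_prod, Nat.card_zmod] at h1
  have h2 : 0 < Nat.card {c // IsK E c} := by
    have : Nonempty {c // IsK E c} := ⟨⟨0, E.zero_mem⟩⟩
    exact Nat.card_pos
  exact Nat.eq_of_mul_eq_mul_left h2 h1

end

end Pool.Agent.Q223.EN
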